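import Pool.Agent.Helper28.NF.Defs
import Pool.Agent.Helper38.ZS.Defs

/-!
# Komlos: definitions (real matrices)

`a j v` (`j : κ` rows, `v : ι` columns) is a real matrix with columns of Euclidean norm at most one.
-/

namespace Pool.Agent.Helper60.KM

open Finset MeasureTheory
open scoped Classical
open Pool.Agent.Helper28.NF (Ph bb ww)

noncomputable section

variable {ι κ : Type} [Fintype ι] [Fintype κ]

omit [Fintype ι] in
/-- the functional of the column `v` -/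
def fv (a : κ → ι → ℝ) (y : κ → ℝ) (v : ι) : ℝ := ∑ j, a j v * y j

/-- potential; `L` are the stiffnesses of the rows, `b` the weights of the columns (negative for
sources) -/
def Pot (a : κ → ι → ℝ) (L : κ → ℝ) (b : ι → ℝ) (y : κ → ℝ) : ℝ :=
  2 * ∑ j, Real.log (1 + L j * y j ^ 2) + ∑ v, b v * Ph (fv a y v)

/-- partition function -/
def ZZ (a : κ → ι → ℝ) (L : κ → ℝ) (b : ι → ℝ) : ℝ := ∫ y : κ → ℝ, Real.exp (-Pot a L b y)

/-- normalised partition function -/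
def Zn (a : κ → ι → ℝ) (L : κ → ℝ) (b : ι → ℝ) : ℝ := ZZ a L b / ZZ a L (fun _ => 0)

/-- the column `u` is happy -/
def Happy (a : κ → ι → ℝ) (L : κ → ℝ) (b : ι → ℝ) (u : ι) : Prop :=
  ∫ y : κ → ℝ, (if 1 / 4 < |fv a y u| then Real.exp (-Pot a L b y) else 0) ≤ 1 / 4 * ZZ a L b

omit [Fintype κ] in
/-- ridge plus weighted Gram matrix -/
def GM (a : κ → ι → ℝ) (R : κ → ℝ) (w : ι → ℝ) : Matrix κ κ ℝ :=
  fun i j => (if i = j then R i else 0) + ∑ v, w v * a i v * a j v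

/-- normalised log determinant -/
def LD (a : κ → ι → ℝ) (R : κ → ℝ) (w : ι → ℝ) : ℝ :=
  Real.log (GM a R w).det - ∑ j, Real.log (R j)

/-- leverage of `u` -/
def lev (a : κ → ι → ℝ) (R : κ → ℝ) (w : ι → ℝ) (u : ι) : ℝ :=
  ∑ i, ∑ j, a i u * (GM a R w)⁻¹ i j * a j u

/-! ## ranks -/

omit [Fintype κ] in
/-- mass of the row `j` in the columns of rank at least `i` -/
def rho (a : κ → ι → ℝ) (k : ι → ℕ) (i : ℕ) (j : κ) : ℝ :=
  ∑ v ∈ univ.filter (fun v => i ≤ k v), a j v ^ 2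

omit [Fintype κ] in
/-- profile of the row `j` at step `i` -/
def AA (a : κ → ι → ℝ) (ε : ℝ) (k : ι → ℕ) (i : ℕ) (j : κ) : ℝ :=
  1 + ε * ∑ v ∈ univ.filter (fun v => i ≤ k v), 20 ^ (k v - i) * a j v ^ 2

omit [Fintype κ] in
/-- stiffness or ridge of the row `j` at step `i` -/
def LL (a : κ → ι → ℝ) (ε L0 : ℝ) (k : ι → ℕ) (i : ℕ) (j : κ) : ℝ := L0 / AA a ε k i j ^ 2

/-- the gain for rows with little mass -/
def MM (x : ℝ) : ℝ := (min 1 x) ^ (1 / 80 : ℝ)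

/-- unit scale cost of a coordinate with defect `d` -/
def Psi (d x : ℝ) : ℝ :=
  if d ≤ 0 then 0 else if d ^ (-(1 / 2) : ℝ) ≤ x then x ^ (19 / 20 : ℝ)
  else if d ^ (1 / 2 : ℝ) ≤ x then (d ^ (1 / 40 : ℝ) + d ^ (1 / 2 : ℝ)) * x else x ^ 2

/-- unit scale cost of a row in the domination, stiffness `L`, mass `N` -/
def Row (L N x : ℝ) : ℝ :=
  if N ^ (-(1 / 2) : ℝ) ≤ x ∨ x < N ^ (1 / 2 : ℝ) / L then 4 * Real.log (1 + L * x ^ 2)
  else 4 * (Real.log (1 + L / N) + 1) * N ^ (1 / 2 : ℝ) * x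

end

end Pool.Agent.Helper60.KM
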