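import Pool.Agent.Helper60.KM.Stmts

/-!
# Komlos, module 2: integrability
-/

namespace Pool.Agent.Helper60.KM

open Finset MeasureTheory Filter Topology
open Pool.Agent.Helper28.NF (Ph bb ww)
open scoped Classical

noncomputable section

theorem Ph_nonneg (x : ℝ) : 0 ≤ Ph x := by
  unfold Ph
  positivity

theorem Ph_le_one (x : ℝ) : Ph x ≤ 1 := by
  unfold Ph
  rw [div_le_one (by positivity)]
  linarith

theorem Ph_cont : Continuous Ph := by
  unfold Ph
  apply Continuous.div
  · fun_prop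
  · fun_prop
  · intro x
    positivity

theorem fv_cont {ι κ : Type} [Fintype ι] [Fintype κ] (a : κ → ι → ℝ) (v : ι) :
    Continuous (fun y : κ → ℝ => fv a y v) := by
  unfold fv
  fun_prop

theorem Pot_cont {ι κ : Type} [Fintype ι] [Fintype κ] (a : κ → ι → ℝ) (L : κ → ℝ) (b : ι → ℝ)
    (hL : ∀ j, 0 < L j) : Continuous (fun y : κ → ℝ => Pot a L b y) := by
  unfold Pot
  apply Continuous.add
  · apply continuous_const.mul
    apply continuous_finsetSum
    intro j _
    apply Continuous.log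
    · fun_prop
    · intro y
      have := hL j
      positivity
  · apply continuous_finsetSum
    intro v _
    exact continuous_const.mul (Ph_cont.comp (fv_cont a v))

/-- one dimensional weight -/
def gg (L y : ℝ) : ℝ := ((1 + L * y ^ 2) ^ 2)⁻¹

theorem gg_cont (L : ℝ) (hL : 0 < L) : Continuous (gg L) := by
  unfold gg
  apply Continuous.inv₀
  · fun_prop
  · intro y
    positivity

theorem gg_pos (L y : ℝ) (hL : 0 < L) : 0 < gg L y := by
  unfold gg
  positivity

theorem gg_scale (L y : ℝ) (hL : 0 < L) : gg L y = gg 1 (Real.sqrt L * y) := by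
  unfold gg
  rw [mul_pow, Real.sq_sqrt hL.le, one_mul]

theorem gg_int1 : Integrable (gg 1) := by
  refine (integrable_inv_one_add_sq).mono' (gg_cont 1 one_pos).aestronglyMeasurable ?_
  filter_upwards with y
  have h1 := gg_pos 1 y one_pos
  rw [Real.norm_of_nonneg h1.le]
  unfold gg
  rw [one_mul]
  apply inv_anti₀ (by positivity)
  nlinarith [sq_nonneg y]

theorem gg_int (L : ℝ) (hL : 0 < L) : Integrable (gg L) := by
  have h1 : gg L = fun y => gg 1 (Real.sqrt L * y) := by
    funext y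
    exact gg_scale L y hL
  rw [h1]
  exact gg_int1.comp_mul_left' (Real.sqrt_pos.2 hL).ne'

theorem gg_integral (L : ℝ) (hL : 0 < L) : ∫ y, gg L y = (Real.sqrt L)⁻¹ * ∫ y, gg 1 y := by
  have h1 : (fun y => gg L y) = fun y => gg 1 (Real.sqrt L * y) := by
    funext y
    exact gg_scale L y hL
  rw [h1, Measure.integral_comp_mul_left]
  rw [abs_of_nonneg (inv_nonneg.2 (Real.sqrt_nonneg L))]
  rfl

theorem exp_log_part {κ : Type} [Fintype κ] (L : κ → ℝ) (hL : ∀ j, 0 < L j) (y : κ → ℝ) :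
    Real.exp (-(2 * ∑ j, Real.log (1 + L j * y j ^ 2))) = ∏ j, gg (L j) (y j) := by
  rw [Finset.mul_sum, ← Finset.sum_neg_distrib, Real.exp_sum]
  apply Finset.prod_congr rfl
  intro j _
  have h1 : 0 < 1 + L j * y j ^ 2 := by
    have := hL j
    positivity
  unfold gg
  rw [Real.exp_neg, mul_comm 2, Real.exp_mul, Real.exp_log h1]
  norm_cast

theorem Pot_exp {ι κ : Type} [Fintype ι] [Fintype κ] (a : κ → ι → ℝ) (L : κ → ℝ) (b : ι → ℝ)
    (hL : ∀ j, 0 < L j) (y : κ → ℝ) : Real.exp (-Pot a L b y)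
      = (∏ j, gg (L j) (y j)) * Real.exp (-∑ v, b v * Ph (fv a y v)) := by
  unfold Pot
  rw [neg_add, Real.exp_add, exp_log_part L hL]

theorem base_int {κ : Type} [Fintype κ] (L : κ → ℝ) (hL : ∀ j, 0 < L j) :
    Integrable (fun y : κ → ℝ => ∏ j, gg (L j) (y j)) :=
  Integrable.fintype_prod (fun j => gg_int (L j) (hL j))

theorem base_integral {κ : Type} [Fintype κ] (L : κ → ℝ) (hL : ∀ j, 0 < L j) :
    ∫ y : κ → ℝ, ∏ j, gg (L j) (y j) = ∏ j, ((Real.sqrt (L j))⁻¹ * ∫ y, gg 1 y) := by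
  rw [integral_fintype_prod_volume_eq_prod]
  apply Finset.prod_congr rfl
  intro j _
  exact gg_integral (L j) (hL j)

theorem Pot_int {ι κ : Type} [Fintype ι] [Fintype κ] (a : κ → ι → ℝ) (L : κ → ℝ) (b : ι → ℝ)
    (hL : ∀ j, 0 < L j) : Integrable (fun y : κ → ℝ => Real.exp (-Pot a L b y)) := by
  have h1 := (base_int L hL).const_mul (Real.exp (∑ v, |b v|))
  refine h1.mono' ?_ ?_
  · exact (Real.continuous_exp.comp (Pot_cont a L b hL).neg).aestronglyMeasurable
  · filter_upwards with y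
    rw [Real.norm_of_nonneg (Real.exp_pos _).le, Pot_exp a L b hL, mul_comm]
    apply mul_le_mul_of_nonneg_right
    · apply Real.exp_le_exp.2
      rw [← Finset.sum_neg_distrib]
      apply Finset.sum_le_sum
      intro v _
      have h2 := Ph_nonneg (fv a y v)
      have h3 := Ph_le_one (fv a y v)
      have h4 := neg_abs_le (b v)
      have h5 := abs_nonneg (b v)
      nlinarith
    · exact Finset.prod_nonneg (fun j _ => (gg_pos _ _ (hL j)).le)

theorem ZZ_pos {ι κ : Type} [Fintype ι] [Fintype κ] (a : κ → ι → ℝ) (L : κ → ℝ) (b : ι → ℝ)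
    (hL : ∀ j, 0 < L j) : 0 < ZZ a L b :=
  integral_exp_pos (Pot_int a L b hL)

theorem ite_int {ι κ : Type} [Fintype ι] [Fintype κ] (a : κ → ι → ℝ) (L : κ → ℝ) (b : ι → ℝ)
    (hL : ∀ j, 0 < L j) (u : ι) :
    Integrable (fun y : κ → ℝ => if 1 / 4 < |fv a y u| then Real.exp (-Pot a L b y) else 0) := by
  have hm : MeasurableSet {y : κ → ℝ | 1 / 4 < |fv a y u|} :=
    (isOpen_lt continuous_const (fv_cont a u).abs).measurableSet
  have h1 := (Pot_int a L b hL).indicator hm
  have h2 : ({y : κ → ℝ | 1 / 4 < |fv a y u|}.indicator (fun y => Real.exp (-Pot a L b y)))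
      = fun y : κ → ℝ => if 1 / 4 < |fv a y u| then Real.exp (-Pot a L b y) else 0 := by
    funext y
    simp [Set.indicator]
  rw [h2] at h1
  exact h1

theorem st_int : ST_INT := by
  intro ι κ _ _ a L b hL
  exact ⟨Pot_int a L b hL, ZZ_pos a L b hL, fun u => ite_int a L b hL u⟩

end

end Pool.Agent.Helper60.KM
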