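import Pool.Agent.Helper60.KM.Defs
import Pool.Agent.Helper28.NF.Stmts
import Pool.Agent.Helper38.ZS.Stmts

/-!
# Komlos: statements of the modules (see km_helper60.md)
-/

namespace Pool.Agent.Helper60.KM

open Finset MeasureTheory
open scoped Classical
open Pool.Agent.Helper28.NF (Ph bb ww)
open Pool.Agent.Helper38.ZS (IsPr ap rs nu l1 II DD Link Piece TT)

noncomputable section

/-- K2. integrability (as NF 2) -/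
def ST_INT : Prop :=
  ∀ (ι κ : Type) [Fintype ι] [Fintype κ] (a : κ → ι → ℝ) (L : κ → ℝ) (b : ι → ℝ),
    (∀ j, 0 < L j) →
    Integrable (fun y : κ → ℝ => Real.exp (-Pot a L b y)) ∧ 0 < ZZ a L b ∧
    ∀ u : ι, Integrable (fun y : κ → ℝ => if 1 / 4 < |fv a y u| then Real.exp (-Pot a L b y) else 0)

/-- K3. domination of the truncated squares (as NF 3) -/
def ST_DOM : Prop :=
  ∀ (ι κ : Type) [Fintype ι] [Fintype κ] (a : κ → ι → ℝ) (L : κ → ℝ) (b : ι → ℝ),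
    (∀ j, 0 < L j) → (∀ u, b u < 0 → Happy a L b u) →
    ∀ y : κ → ℝ, 7 / 20 * ∑ u, max (-b u) 0 * Ph (fv a y u)
      ≤ ∑ v, max (b v) 0 * Ph (fv a y v) + 2 * ∑ j, Real.log (1 + L j * y j ^ 2)

/-- K4a. one scale of the domination, rows of `T` rounded to multiples of `u` -/
def ST_RDOM : Prop :=
  ∀ (ι κ : Type) [Fintype ι] [Fintype κ] (a : κ → ι → ℝ) (L : κ → ℝ) (p q : ι → ℝ),
    (∀ j, 0 < L j) → (∀ v, 0 ≤ p v) → (∀ v, 0 ≤ q v) →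
    (∀ y : κ → ℝ, ∑ u, p u * Ph (fv a y u)
      ≤ ∑ v, q v * Ph (fv a y v) + 2 * ∑ j, Real.log (1 + L j * y j ^ 2)) →
    ∀ (T : Finset κ) (u x : κ → ℝ), (∀ j, 0 < u j) → (∀ j ∈ T, |x j| ≤ u j) →
      ∑ v, p v * Ph (fv a x v) ≤ 4 * ∑ v, q v * Ph (fv a x v)
        + ∑ j ∈ Tᶜ, 4 * Real.log (1 + L j * x j ^ 2)
        + ∑ j ∈ T, 4 * (Real.log (1 + L j * u j ^ 2) / u j
          + (∑ v, (p v + q v) * a j v ^ 2) * u j) * |x j|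

/-- K4b. sum of the costs of one row over the dyadic scales -/
def ST_DYAD : Prop :=
  ∃ C : ℝ, 1 ≤ C ∧ ∀ (L N x : ℝ) (J : Finset ℤ), 0 < N → N ≤ L → 0 ≤ x →
    ∑ i ∈ J, (2 : ℝ) ^ i * Row L N ((2 : ℝ) ^ (-i) * x) ≤ C * (Real.sqrt L * MM (N / L) * x)

/-- K4c. domination in `l1` with small tolerances -/
def ST_SCALE : Prop :=
  ∃ C : ℝ, 1 ≤ C ∧
  ∀ (ι κ : Type) [Fintype ι] [Fintype κ] (a : κ → ι → ℝ) (L N : κ → ℝ) (p q : ι → ℝ),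
    (∀ j, 0 < L j) → (∀ v, 0 ≤ p v) → (∀ v, 0 ≤ q v) →
    (∀ y : κ → ℝ, ∑ u, p u * Ph (fv a y u)
      ≤ ∑ v, q v * Ph (fv a y v) + 2 * ∑ j, Real.log (1 + L j * y j ^ 2)) →
    (∀ j, ∑ v, (p v + q v) * a j v ^ 2 ≤ N j) →
    ∀ y : κ → ℝ, ∑ u, p u * |fv a y u|
      ≤ C * ∑ v, q v * |fv a y v| + C * ∑ j, Real.sqrt (L j) * MM (N j / L j) * |y j|

/-- K5. changes of the partition function (as NF 5) -/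
def ST_ZCOST : Prop :=
  ∀ (ι κ : Type) [Fintype ι] [Fintype κ] (a : κ → ι → ℝ) (L : κ → ℝ) (b : ι → ℝ),
    (∀ j, 0 < L j) →
    (∀ b' : ι → ℝ, (∀ v, b v ≤ b' v) → ZZ a L b' ≤ ZZ a L b ∧
      ZZ a L b ≤ Real.exp (∑ v, (b' v - b v)) * ZZ a L b') ∧
    (∀ u, b u ≤ 0 → ¬ Happy a L b u →
      ZZ a L (Function.update b u 1) ≤ Real.exp (-(1 / 70)) * ZZ a L b) ∧
    (∀ L' : κ → ℝ, (∀ j, 0 < L' j) → (∀ j, L' j ≤ L j) →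
      Zn a L' b ≤ Real.exp (3 / 2 * ∑ j, Real.log (L j / L' j)) * Zn a L b)

/-- K6. lower bound of the partition function -/
def ST_ZLOW : Prop :=
  ∀ (ι κ : Type) [Fintype ι] [Fintype κ] (a : κ → ι → ℝ) (L : κ → ℝ) (b : ι → ℝ) (L0 : ℝ),
    (∀ j, 0 < L j) → (∀ j, L j ≤ L0) → (∀ v, ∑ j, a j v ^ 2 ≤ 1) →
    -((∑ v, max (b v) 0) / L0) - 1 / 2 * ∑ j, Real.log (L0 / L j) ≤ Real.log (Zn a L b)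

/-- K7. log determinants (as NF 7) -/
def ST_LD : Prop :=
  ∀ (ι κ : Type) [Fintype ι] [Fintype κ] (a : κ → ι → ℝ) (R : κ → ℝ) (w : ι → ℝ),
    (∀ j, 0 < R j) → (∀ v, 0 ≤ w v) →
    (∀ u, 0 ≤ lev a R w u) ∧
    (∀ u c, 0 ≤ c → LD a R (Function.update w u (w u + c)) = LD a R w
      + Real.log (1 + c * lev a R w u)) ∧
    (∀ u c, 0 < c → c ≤ w u → LD a R w ≤ LD a R (Function.update w u c) + Real.log (w u / c)) ∧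
    (∀ R' : κ → ℝ, (∀ j, 0 < R' j) → (∀ j, R' j ≤ R j) → LD a R w ≤ LD a R' w) ∧
    (LD a R w ≤ ∑ j, Real.log (1 + (∑ v, w v * a j v ^ 2) / R j)) ∧
    (∀ (w' : ι → ℝ) (c : ℝ) (u : ι), 0 < c → (∀ v, c * w v ≤ w' v) → c ≤ 1 →
      lev a R w' u ≤ lev a R w u / c)

/-- K8. the ranks -/
def ST_RANK : Prop :=
  ∀ (H : ℕ) (B : ℝ), 1 ≤ B → 50 * B ≤ 400 ^ H → ∃ ε L0 R0 : ℝ, 0 < ε ∧ ε ≤ 1 ∧ 1 ≤ L0 ∧ 1 ≤ R0 ∧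
    ∀ (ι κ : Type) [Fintype ι] [Fintype κ] (a : κ → ι → ℝ), (∀ v, ∑ j, a j v ^ 2 ≤ 1) →
      ∃ k : ι → ℕ, ∀ (i : ℕ) (u : ι), k u + 1 = i →
        Happy a (LL a ε L0 k i) (bb k i) u ∧
        lev a (LL a ε R0 k i) (ww H k i) u ≤ 8 / 1000 / B

/-- K9. sum of the unit scale costs over the dyadic scales -/
def ST_PSI : Prop :=
  ∃ C : ℝ, 1 ≤ C ∧ ∀ (d x : ℝ) (J : Finset ℤ), 0 ≤ d → d ≤ 1 → 0 ≤ x →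
    ∑ i ∈ J, (2 : ℝ) ^ i * Psi d ((2 : ℝ) ^ (-i) * x) ≤ C * (d ^ (1 / 80 : ℝ) * x)

/-- K10. level selection with an arbitrary summable cost `b` (as ZS 1, `V` part) -/
def ST_LEVEL : Prop :=
  ∃ C0 : ℝ, 1 ≤ C0 ∧ ∀ (ι : Type) [Fintype ι] (V : Finset ι) (f ξ : ι → ℝ) (β T : ℝ) (b : ℤ → ℝ),
    0 < β → β ≤ 1 → (∀ i ∈ V, |ξ i| ≤ 1) → (∀ l, 0 ≤ b l) → (∀ J : Finset ℤ, ∑ l ∈ J, b l ≤ T) →
    β * l1 f V + T < ∑ i ∈ V, ξ i * f i →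
    ∃ l : ℤ, 0 < ∑ i ∈ V, |TT ((2 : ℝ) ^ (-l) * f i)| ∧
      β / 2 * ∑ i ∈ V, |TT ((2 : ℝ) ^ (-l) * f i)| < ∑ i ∈ V, ξ i * TT ((2 : ℝ) ^ (-l) * f i) ∧
      (∀ h : ℤ, (2 : ℝ) ^ h * (β * (#(V.filter (fun i => (2 : ℝ) ^ (h + 1)
          ≤ |(2 : ℝ) ^ (-l) * f i|)) : ℝ))
        ≤ C0 * (2 : ℝ) ^ (|(h : ℝ)| / 40) * ∑ i ∈ V, |TT ((2 : ℝ) ^ (-l) * f i)|) ∧
      (2 : ℝ) ^ (-l) * b l ≤ C0 * ∑ i ∈ V, |TT ((2 : ℝ) ^ (-l) * f i)|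

/-- K11. random rounding of the coordinates of `D` -/
def ST_ROUND : Prop :=
  ∀ (ι : Type) [Fintype ι] (P : ι → ι → ℝ) (D : Finset ι) (x : ι → ℝ), IsPr P →
    ∃ g : ι → ℝ, (∀ k, k ∉ D → g k = 0) ∧ (∀ k ∈ D, g k = 0 ∨ 1 ≤ |g k|) ∧
      nu g D + ∑ i, ((g i - rs D x i) - ap P (fun k => g k - rs D x k) i) ^ 2
      ≤ 4 * ∑ k ∈ D, Psi (1 - P k k) |x k|

/-- K12. a bad vector has a bad piece (as ZS 4, with small weights) -/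
def ST_PIECE : Prop :=
  ∀ β : ℝ, 0 < β → β ≤ 1 → ∃ C1 : ℝ, 1 ≤ C1 ∧ ∀ ε : ℝ, 0 < ε → ε ≤ 1 →
    ∃ γ κ C : ℝ, 0 < γ ∧ γ ≤ 1 ∧ 0 < κ ∧ κ ≤ 1 ∧ 1 ≤ C ∧
    ∀ (L : ℝ) (ι : Type) [Fintype ι] (P : ι → ι → ℝ) (V : Finset ι) (f ξ : ι → ℝ),
      1 ≤ L → IsPr P → ap P f = f → (∀ i ∈ V, |ξ i| ≤ 1) →
      β * l1 f V + C * L * ∑ i ∈ Vᶜ, (1 - P i i) ^ (1 / 80 : ℝ) * |f i| < ∑ i ∈ V, ξ i * f i →
      ∃ (g : ι → ℝ) (Z : Finset ι) (m : ℝ), m = ∑ i ∈ Z ∩ V, |TT (g i)| ∧ 0 < m ∧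
        β / 4 * m < ∑ i ∈ Z ∩ V, ξ i * TT (g i) ∧ (∀ i ∈ Z, γ ≤ |g i|) ∧ Link P κ Z g ∧
        nu g Z ≤ C * m ∧ nu g (Z \ V) ≤ C / L * m ∧ DD P g Z ≤ ε * m ∧
        (#((Z ∩ V).filter (fun i => 1 / 2 ≤ |g i|)) : ℝ) ≤ C1 * m

/-- K13. zonotope signing with means and small weights (theorem Y3) -/
def ST_SIGNZ : Prop :=
  ∀ β : ℝ, 0 < β → β ≤ 1 → ∃ η L : ℝ, 0 < η ∧ η ≤ 1 ∧ 1 ≤ L ∧
    ∀ (I : Type) [Fintype I] (P : I → I → ℝ) (X : Finset I) (z : I → ℝ),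
      IsPr P → (∀ i ∈ X, P i i ≤ η) → (∀ i, |z i| ≤ 1) →
      ∃ ξ : I → ℝ, (∀ i, ξ i = 1 ∨ ξ i = -1) ∧
        ∀ f : I → ℝ, ap P f = f →
          ∑ i ∈ X, (ξ i - z i) * f i ≤ β * ∑ i ∈ X, |f i|
            + L * ∑ i ∈ Xᶜ, (1 - P i i) ^ (1 / 80 : ℝ) * |f i|

/-- K14. one step, generic form (as NF 11, with small tolerances) -/
def ST_STEP : Prop :=
  ∀ β : ℝ, 0 < β → β ≤ 1 → ∃ η L : ℝ, 0 < η ∧ η ≤ 1 ∧ 1 ≤ L ∧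
    ∀ (ι κ : Type) [Fintype ι] [Fintype κ] (a : κ → ι → ℝ) (E V : Finset ι) (c τ z : ι → ℝ)
      (R σ : κ → ℝ), Disjoint E V → (∀ j, 0 < R j) → (∀ v, 0 ≤ c v) → (∀ v, 0 ≤ τ v) →
      (∀ j, 0 ≤ σ j) → (∀ v, |z v| ≤ 1) →
      (∀ u ∈ E, lev a R (fun v => if v ∈ E then 1 else if v ∈ V then c v ^ 2 else 0) u ≤ η) →
      (∀ y : κ → ℝ, ∑ u ∈ E, |fv a y u| ≤ ∑ v ∈ V, τ v * |fv a y v| + ∑ j, σ j * |y j|) →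
      ∃ (ξ δ : ι → ℝ) (ρ : κ → ℝ), (∀ v, ξ v = 1 ∨ ξ v = -1) ∧
        (∀ v, |δ v| ≤ β * τ v + L * c v) ∧
        (∀ j, |ρ j| ≤ β * σ j + L * Real.sqrt (R j)
          * MM ((∑ v ∈ E, a j v ^ 2 + ∑ v ∈ V, c v ^ 2 * a j v ^ 2) / R j)) ∧
        ∀ j, ∑ v ∈ E, a j v * (ξ v - z v) = ∑ v ∈ V, a j v * δ v + ρ j

/-- K15. the signing, from the steps (as NF 12) -/
def ST_ITER : Prop :=
  ∀ (ι κ : Type) [Fintype ι] [Fintype κ] (a : κ → ι → ℝ) (k : ι → ℕ) (τ : ℕ → ι → ℝ)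
    (σ : ℕ → κ → ℝ), (∀ i v, 0 ≤ τ i v) → (∀ i j, 0 ≤ σ i j) →
    (∀ v, ∑ i ∈ Icc 1 (k v), τ i v ≤ 1) →
    (∀ i, 1 ≤ i → ∀ z : ι → ℝ, (∀ v, |z v| ≤ 1) →
      ∃ (ξ δ : ι → ℝ) (ρ : κ → ℝ), (∀ v, ξ v = 1 ∨ ξ v = -1) ∧ (∀ v, |δ v| ≤ τ i v) ∧
        (∀ j, |ρ j| ≤ σ i j) ∧
        ∀ j, ∑ v ∈ univ.filter (fun v => k v + 1 = i), a j v * (ξ v - z v)
          = ∑ v ∈ univ.filter (fun v => i ≤ k v), a j v * δ v + ρ j) →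
    ∃ χ : ι → ℝ, (∀ v, χ v = 1 ∨ χ v = -1) ∧
      ∀ j, |∑ v, a j v * χ v| ≤ ∑ i ∈ Icc 1 (univ.sup k + 1), σ i j

/-- K16. sum of the errors of one row -/
def ST_ERR : Prop :=
  ∀ ε K : ℝ, 0 < ε → ε ≤ 1 → 1 ≤ K → ∃ C : ℝ, 1 ≤ C ∧
    ∀ (ι κ : Type) [Fintype ι] (a : κ → ι → ℝ) (k : ι → ℕ) (j : κ) (n : ℕ),
      ∑ i ∈ Icc 1 n, 1 / AA a ε k i j * MM (K * AA a ε k i j ^ 2 * rho a k (i - 1) j) ≤ C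

/-- K17. the Komlos conjecture -/
def ST_MAIN : Prop :=
  ∃ C : ℝ, 0 < C ∧ ∀ (n m : ℕ) (a : Fin m → Fin n → ℝ), (∀ v, ∑ j, a j v ^ 2 ≤ 1) →
    ∃ χ : Fin n → ℝ, (∀ v, χ v = 1 ∨ χ v = -1) ∧ ∀ j, |∑ v, a j v * χ v| ≤ C

end

end Pool.Agent.Helper60.KM
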